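import Mathlib

set_option autoImplicit false

namespace Pool.Agent.MP_114209_co.InDom

open Finset

/-- hubs -/
abbrev Hub (d : ℕ) := Fin (d * 2 ^ d + 1)

/-- vertices: hubs, and one vertex for each family of sets of hubs -/
abbrev Vx (d : ℕ) := Hub d ⊕ Finset (Finset (Hub d))

/-- For a family with fewer than `d` members some atom of its Venn diagram has at least `d` hubs. -/
lemma exists_atom (d : ℕ) (Z : Finset (Finset (Hub d))) (hZ : Z.card < d) :
    ∃ S : Finset (Hub d), d ≤ S.card ∧ ∀ Y ∈ Z, (S ⊆ Y ∨ Disjoint S Y) := by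
  classical
  let f : Hub d → Finset (Finset (Hub d)) := fun a => Z.filter (fun Y => a ∈ Y)
  have hmaps : ∀ a ∈ (univ : Finset (Hub d)), f a ∈ Z.powerset := by
    intro a _
    exact mem_powerset.2 (filter_subset _ _)
  have hcard : Z.powerset.card * d < (univ : Finset (Hub d)).card := by
    rw [card_powerset, card_univ, Fintype.card_fin]
    have : 2 ^ Z.card ≤ 2 ^ d := Nat.pow_le_pow_right (by norm_num) hZ.le
    nlinarith
  obtain ⟨T, -, hT⟩ := exists_lt_card_fiber_of_mul_lt_card_of_maps_to hmaps hcard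
  refine ⟨univ.filter (fun a => f a = T), hT.le, ?_⟩
  intro Y hY
  by_cases hYT : Y ∈ T
  · left
    intro a ha
    have h1 : f a = T := (mem_filter.1 ha).2
    rw [← h1] at hYT
    exact (mem_filter.1 hYT).2
  · right
    rw [disjoint_left]
    intro a ha haY
    have h1 : f a = T := (mem_filter.1 ha).2
    apply hYT
    rw [← h1]
    exact mem_filter.2 ⟨hY, haY⟩

open Classical in
/-- the chosen atom -/
noncomputable def atom (d : ℕ) (Z : Finset (Finset (Hub d))) : Finset (Hub d) :=
  if h : Z.card < d then (exists_atom d Z h).choose else ∅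

lemma atom_spec (d : ℕ) (Z : Finset (Finset (Hub d))) (hZ : Z.card < d) :
    d ≤ (atom d Z).card ∧ ∀ Y ∈ Z, (atom d Z ⊆ Y ∨ Disjoint (atom d Z) Y) := by
  unfold atom
  rw [dif_pos hZ]
  exact (exists_atom d Z hZ).choose_spec

/-- arcs -/
def adj (d : ℕ) : Vx d → Vx d → Prop
  | Sum.inl _, Sum.inl _ => False
  | Sum.inl _, Sum.inr Z' => ∃ Y, Z' = (univ : Finset (Finset (Hub d))).erase Y
  | Sum.inr Z, Sum.inl a => Z.card < d ∧ a ∈ atom d Z
  | Sum.inr Z, Sum.inr Z' => d ≤ Z.card ∧ ∃ Y ∈ Z, Z' = Z.erase Y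

def G (d : ℕ) : Digraph (Vx d) := ⟨adj d⟩

lemma card_univ_fam (d : ℕ) : d + 1 ≤ (univ : Finset (Finset (Hub d))).card := by
  rw [card_univ, Fintype.card_finset, Fintype.card_fin]
  have h1 : d * 2 ^ d + 1 < 2 ^ (d * 2 ^ d + 1) := Nat.lt_two_pow_self
  have h2 : 1 ≤ 2 ^ d := Nat.one_le_two_pow
  nlinarith

lemma erase_inj {α : Type*} [DecidableEq α] (Z : Finset α) {Y Y' : α} (hY : Y ∈ Z)
    (h : Z.erase Y = Z.erase Y') : Y = Y' := by
  by_contra hne
  have : Y ∈ Z.erase Y' := mem_erase.2 ⟨hne, hY⟩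
  rw [← h] at this
  exact (notMem_erase Y Z) this

lemma asymm (d : ℕ) : ∀ u v, (G d).Adj u v → ¬ (G d).Adj v u := by
  intro u v huv hvu
  rcases u with a | Z <;> rcases v with b | Z'
  · exact huv
  · obtain ⟨Y, rfl⟩ := huv
    have h1 : ((univ : Finset (Finset (Hub d))).erase Y).card < d := hvu.1
    rw [card_erase_of_mem (mem_univ _)] at h1
    have := card_univ_fam d
    omega
  · obtain ⟨Y, rfl⟩ := hvu
    have h1 : ((univ : Finset (Finset (Hub d))).erase Y).card < d := huv.1
    rw [card_erase_of_mem (mem_univ _)] at h1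
    have := card_univ_fam d
    omega
  · obtain ⟨-, Y, hY, h1⟩ := huv
    obtain ⟨-, Y', hY', h2⟩ := hvu
    have e1 := congrArg card h1
    have e2 := congrArg card h2
    rw [card_erase_of_mem hY] at e1
    rw [card_erase_of_mem hY'] at e2
    have : 0 < Z.card := card_pos.2 ⟨Y, hY⟩
    have : 0 < Z'.card := card_pos.2 ⟨Y', hY'⟩
    omega

lemma le_card_of_inj {α β : Type*} [Finite β] (s : Finset α) (f : s → β)
    (hf : Function.Injective f) : s.card ≤ Nat.card β := by
  have := Nat.card_le_card_of_injective f hf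
  simpa using this

lemma outdeg (d : ℕ) : ∀ w, d ≤ Nat.card {u // (G d).Adj w u} := by
  intro w
  rcases w with a | Z
  · have h := le_card_of_inj (β := {u // (G d).Adj (Sum.inl a) u})
      (univ : Finset (Finset (Hub d)))
      (fun Y => ⟨Sum.inr (univ.erase Y.1), ⟨Y.1, rfl⟩⟩) (by
        intro Y Y' h
        have h1 : (univ : Finset (Finset (Hub d))).erase Y.1 = univ.erase Y'.1 := by
          simpa using h
        exact Subtype.ext (erase_inj _ (mem_univ _) h1))
    have := card_univ_fam d
    omega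
  · by_cases hZ : Z.card < d
    · have h := le_card_of_inj (β := {u // (G d).Adj (Sum.inr Z) u}) (atom d Z)
        (fun a => ⟨Sum.inl a.1, ⟨hZ, a.2⟩⟩) (by
          intro a b h
          have h1 : a.1 = b.1 := by simpa using h
          exact Subtype.ext h1)
      exact (atom_spec d Z hZ).1.trans h
    · have hZ' : d ≤ Z.card := not_lt.1 hZ
      have h := le_card_of_inj (β := {u // (G d).Adj (Sum.inr Z) u}) Z
        (fun Y => ⟨Sum.inr (Z.erase Y.1), ⟨hZ', Y.1, Y.2, rfl⟩⟩) (by
          intro Y Y' h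
          have h1 : Z.erase Y.1 = Z.erase Y'.1 := by simpa using h
          exact Subtype.ext (erase_inj _ Y.2 h1))
      exact hZ'.trans h

lemma two_of_card {β : Type*} (h : 2 ≤ Nat.card β) : ∃ x y : β, x ≠ y := by
  have hfin : Finite β := Nat.finite_of_card_ne_zero (by omega)
  have : Nontrivial β := Finite.one_lt_card_iff_nontrivial.1 (by omega)
  exact exists_pair_ne β

theorem no_good_set (d : ℕ) (X : Set (Vx d))
    (hdom : ∀ v, v ∉ X → ∃ u ∈ X, (G d).Adj v u)
    (hdeg : ∀ v, v ∉ X → 2 ≤ Nat.card {u // u ∉ X ∧ (G d).Adj v u}) : X = Set.univ := by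
  classical
  let Y0 : Finset (Hub d) := univ.filter (fun a => (Sum.inl a : Vx d) ∉ X)
  have hY0 : ∀ a, a ∈ Y0 ↔ (Sum.inl a : Vx d) ∉ X := by
    intro a; simp [Y0]
  -- no family containing Y0 survives
  have key : ∀ n, ∀ Z : Finset (Finset (Hub d)), Z.card = n → Y0 ∈ Z →
      (Sum.inr Z : Vx d) ∈ X := by
    intro n
    induction n using Nat.strong_induction_on with
    | _ n ih =>
      intro Z hn hZ
      by_contra hX
      obtain ⟨⟨u, huX, hu⟩, ⟨u', huX', hu'⟩, hne⟩ := two_of_card (hdeg _ hX)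
      have hne' : u ≠ u' := fun h => hne (Subtype.ext h)
      obtain ⟨w, hwX, hw⟩ := hdom _ hX
      by_cases hd : Z.card < d
      · rcases u with a | Z1
        · rcases w with b | Z2
          · rcases (atom_spec d Z hd).2 Y0 hZ with h | h
            · exact (hY0 b).1 (h hw.2) hwX
            · exact disjoint_left.1 h hu.2 ((hY0 a).2 huX)
          · exact absurd hw.1 (not_le.2 hd)
        · exact absurd hu.1 (not_le.2 hd)
      · rcases u with a | Z1
        · exact hd hu.1
        · rcases u' with a' | Z2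
          · exact hd hu'.1
          · obtain ⟨-, Y, hY, rfl⟩ := hu
            obtain ⟨-, Y', hY', rfl⟩ := hu'
            have hpos : 0 < Z.card := card_pos.2 ⟨Y, hY⟩
            by_cases h : Y0 = Y
            · have h' : Y0 ≠ Y' := by
                rintro rfl
                exact hne' (by rw [h])
              exact huX' (ih _ (by rw [card_erase_of_mem hY']; omega) _ rfl
                (mem_erase.2 ⟨h', hZ⟩))
            · exact huX (ih _ (by rw [card_erase_of_mem hY]; omega) _ rfl
                (mem_erase.2 ⟨h, hZ⟩))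
  -- no hub survives
  have hub : ∀ a, (Sum.inl a : Vx d) ∈ X := by
    intro a
    by_contra hX
    obtain ⟨⟨u, huX, hu⟩, ⟨u', huX', hu'⟩, hne⟩ := two_of_card (hdeg _ hX)
    have hne' : u ≠ u' := fun h => hne (Subtype.ext h)
    rcases u with b | Z1
    · exact hu
    · rcases u' with b' | Z2
      · exact hu'
      · obtain ⟨Y, rfl⟩ := hu
        obtain ⟨Y', rfl⟩ := hu'
        by_cases h : Y0 = Y
        · have h' : Y0 ≠ Y' := by
            rintro rfl
            exact hne' (by rw [h])
          exact huX' (key _ _ rfl (mem_erase.2 ⟨h', mem_univ _⟩))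
        · exact huX (key _ _ rfl (mem_erase.2 ⟨h, mem_univ _⟩))
  have fam : ∀ n, ∀ Z : Finset (Finset (Hub d)), Z.card = n → (Sum.inr Z : Vx d) ∈ X := by
    intro n
    induction n using Nat.strong_induction_on with
    | _ n ih =>
      intro Z hn
      by_contra hX
      obtain ⟨⟨u, huX, hu⟩, -, -⟩ := two_of_card (hdeg _ hX)
      rcases u with a | Z1
      · exact huX (hub a)
      · obtain ⟨-, Y, hY, rfl⟩ := hu
        have hpos : 0 < Z.card := card_pos.2 ⟨Y, hY⟩
        exact huX (ih _ (by rw [card_erase_of_mem hY]; omega) _ rfl)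
  ext v
  rcases v with a | Z
  · simpa using hub a
  · simpa using fam _ Z rfl

end Pool.Agent.MP_114209_co.InDom
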